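import Pool.Agent.helper88.RL.SpecW
import Pool.Agent.helper51.T6.WDL
set_option autoImplicit false
namespace Pool.Agent.RL
open Finset Pool.Agent.helper3.FT Pool.Agent.T6 Pool.Agent.RF

/-- parallel moduli divide each other -/
theorem VKA_par {k k₁ : OO} (hk : IsCoprime k (star k)) (hk₁ : IsCoprime k₁ (star k₁)) (h : dt k k₁ = 0) : k ∣ k₁ ∧ k₁ ∣ k := by
  unfold dt at h
  have e : k * star k₁ = star k * k₁ := by
    ext
    · simp [QuadraticAlgebra.re_mul]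
      nlinarith
    · simp [QuadraticAlgebra.im_mul]
      nlinarith
  constructor
  · exact hk.dvd_of_dvd_mul_left ⟨star k₁, e.symm⟩
  · refine hk₁.dvd_of_dvd_mul_left (z := k) ⟨star k, ?_⟩
    rw [mul_comm (star k₁) k, e, mul_comm]

theorem VKA_lamb (δ r : ℕ) : 0 ≤ lamb 1 δ r := by
  unfold lamb
  refine Real.sInf_nonneg ?_
  rintro x ⟨v, _, _, rfl⟩
  unfold nrm
  exact le_max_of_le_left (le_max_of_le_left (abs_nonneg _))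

theorem VKA_pow (x : ℝ) (hx : 0 ≤ x) : √((1 + x) ^ 3) ≤ 3 * (1 + x ^ (3 / 2 : ℝ)) := by
  have h1 : √((1 + x) ^ 3) = (1 + x) ^ (3 / 2 : ℝ) := by
    rw [Real.sqrt_eq_rpow, ← Real.rpow_natCast, ← Real.rpow_mul (by linarith)]
    norm_num
  have h2 : (2 : ℝ) ^ (3 / 2 : ℝ) ≤ 3 := by
    have h3 : ((2 : ℝ) ^ (3 / 2 : ℝ)) ^ 2 = 8 := by
      rw [← Real.rpow_natCast, ← Real.rpow_mul (by norm_num)]
      norm_num
    have h4 : 0 ≤ (2 : ℝ) ^ (3 / 2 : ℝ) := by positivity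
    nlinarith
  have h5 : 0 ≤ x ^ (3 / 2 : ℝ) := Real.rpow_nonneg hx _
  rw [h1]
  rcases le_total x 1 with hx1 | hx1
  · have h6 : (1 + x) ^ (3 / 2 : ℝ) ≤ 2 ^ (3 / 2 : ℝ) := Real.rpow_le_rpow (by linarith) (by linarith) (by norm_num)
    linarith
  · have h6 : (1 + x) ^ (3 / 2 : ℝ) ≤ (2 * x) ^ (3 / 2 : ℝ) := Real.rpow_le_rpow (by linarith) (by linarith) (by norm_num)
    rw [Real.mul_rpow (by norm_num) hx] at h6
    nlinarith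

theorem VKA (hVNR : VNR_stmt) (hVSM : VSM_stmt) (hVRK : VRK_stmt) (hVWF : VWF_stmt) (hN4 : N4_stmt) : VKA_stmt := by
  intro hL
  obtain ⟨C₁, hC₁, H1⟩ := hVNR
  obtain ⟨y₀, C₂, _, hC₂, H2⟩ := hVSM hL
  refine ⟨3 * C₁ * 16 + 3 * C₁ * C₂, by nlinarith, ?_⟩
  intro Q B T E c G R g W a hQ hB hT hE hc hG hg hga hgb hR hW hWd
  have hQR : (1 : ℝ) ≤ Q := by exact_mod_cast hQ
  have hBR : (1 : ℝ) ≤ B := by exact_mod_cast hB
  have hTR : (1 : ℝ) ≤ T := by exact_mod_cast hT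
  have hER : (1 : ℝ) ≤ E := by exact_mod_cast hE
  have hcR : (1 : ℝ) ≤ c := by exact_mod_cast hc
  have hR0 : 0 ≤ R := le_trans (by positivity) hR
  -- the number of moduli
  have hcard : (W.card : ℝ) ≤ 16 * Q := by
    have h1 := hVWF Q 1 W hQ le_rfl (fun k hk => (hW k hk).1) (fun k hk k₁ hk₁ hne => by
      have h2 : dt k k₁ ≠ 0 := by
        intro h0
        have h3 := VKA_par (hW k hk).1.co (hW k₁ hk₁).1.co h0
        exact hne (hWd k hk k₁ hk₁ h3.1 h3.2)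
      have h4 : (1 : ℤ) ≤ |dt k k₁| := Int.one_le_abs h2
      exact_mod_cast h4)
    have h5 : (1 : ℝ) + 15 * Q / ((1 : ℕ) : ℝ) = 1 + 15 * Q := by simp
    rw [h5] at h1
    linarith
  -- one frequency
  have hone : ∀ k ∈ W, ∀ h ∈ Ico 1 T, √((nearG B (h * E) k (a k)).card : ℝ) ≤
      3 * C₁ * (1 + R ^ (3 / 2 : ℝ) * (1 / lamb 1 (dl y₀ h (mk k)) (rk (dl y₀ h (mk k)) k)) ^ (3 / 2 : ℝ)) := by
    intro k hk h hh
    rw [mem_Ico] at hh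
    obtain ⟨h1, h2, h3, _, _⟩ := WDL.1 y₀ h (mk k) hh.1
    have h4 := hVRK.1 (dl y₀ h (mk k)) k h1 h3
    have hhR : (h : ℝ) ≤ T := by exact_mod_cast hh.2.le
    have hsz : ((h * E : ℕ) : ℝ) * c * G * B / (Q : ℝ) ^ (3 / 2 : ℝ) + G * (Q : ℝ) ^ (3 / 2 : ℝ) / B ≤ R := by
      refine le_trans (add_le_add_left (div_le_div_of_nonneg_right ?_ (by positivity)) _) hR
      push_cast
      have h5 : (h : ℝ) * E ≤ E * T := by nlinarith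
      exact mul_le_mul_of_nonneg_right (mul_le_mul_of_nonneg_right (mul_le_mul_of_nonneg_right h5 (by positivity)) (by linarith)) (by positivity)
    have h6 := H1 Q B c (h * E) (dl y₀ h (mk k)) (rk (dl y₀ h (mk k)) k) G R k g (a k) hQ hB hc (Nat.mul_pos hh.1 hE) hG hg hga hgb (hW k hk).1 (hW k hk).2.1 (hW k hk).2.2 h1
      (h2.mul_right E) h3 h4.1 hsz
    set L : ℝ := lamb 1 (dl y₀ h (mk k)) (rk (dl y₀ h (mk k)) k) with hLdef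
    have hL0 : 0 ≤ L := VKA_lamb _ _
    have h7 : √((nearG B (h * E) k (a k)).card : ℝ) ≤ √(C₁ * (1 + R / L) ^ 3) := Real.sqrt_le_sqrt h6
    rw [Real.sqrt_mul (by linarith)] at h7
    have h8 : √C₁ ≤ C₁ := by
      rw [Real.sqrt_le_left (by linarith)]
      nlinarith
    have h9 := VKA_pow (R / L) (by positivity)
    have h10 : (R / L) ^ (3 / 2 : ℝ) = R ^ (3 / 2 : ℝ) * (1 / L) ^ (3 / 2 : ℝ) := by
      rw [← Real.mul_rpow hR0 (by positivity)]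
      congr 1
      ring
    rw [h10] at h9
    refine h7.trans ?_
    have h11 : √C₁ * √((1 + R / L) ^ 3) ≤ C₁ * (3 * (1 + R ^ (3 / 2 : ℝ) * (1 / L) ^ (3 / 2 : ℝ))) :=
      mul_le_mul h8 h9 (Real.sqrt_nonneg _) (by linarith)
    linarith
  have hsum : ∑ k ∈ W, NK B T E k (a k) ≤ ∑ k ∈ W, ∑ h ∈ Ico 1 T, 3 * C₁ * (1 + R ^ (3 / 2 : ℝ) * (1 / lamb 1 (dl y₀ h (mk k)) (rk (dl y₀ h (mk k)) k)) ^ (3 / 2 : ℝ)) := by
    unfold NK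
    exact sum_le_sum fun k hk => sum_le_sum fun h hh => hone k hk h hh
  refine hsum.trans ?_
  have h12 : ∑ k ∈ W, ∑ h ∈ Ico 1 T, 3 * C₁ * (1 + R ^ (3 / 2 : ℝ) * (1 / lamb 1 (dl y₀ h (mk k)) (rk (dl y₀ h (mk k)) k)) ^ (3 / 2 : ℝ)) =
      3 * C₁ * (W.card * ((T - 1 : ℕ) : ℝ)) + 3 * C₁ * R ^ (3 / 2 : ℝ) * ∑ k ∈ W, ∑ h ∈ Ico 1 T, (1 / lamb 1 (dl y₀ h (mk k)) (rk (dl y₀ h (mk k)) k)) ^ (3 / 2 : ℝ) := by
    have h13 : ∀ k ∈ W, ∑ h ∈ Ico 1 T, 3 * C₁ * (1 + R ^ (3 / 2 : ℝ) * (1 / lamb 1 (dl y₀ h (mk k)) (rk (dl y₀ h (mk k)) k)) ^ (3 / 2 : ℝ)) =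
        3 * C₁ * ((T - 1 : ℕ) : ℝ) + 3 * C₁ * R ^ (3 / 2 : ℝ) * ∑ h ∈ Ico 1 T, (1 / lamb 1 (dl y₀ h (mk k)) (rk (dl y₀ h (mk k)) k)) ^ (3 / 2 : ℝ) := by
      intro k _
      rw [← mul_sum, sum_add_distrib, ← mul_sum, sum_const, Nat.card_Ico, nsmul_eq_mul]
      ring
    rw [sum_congr rfl h13, sum_add_distrib, sum_const, nsmul_eq_mul, ← mul_sum]
    ring
  rw [h12]
  have h14 := H2 Q T 1 W hQ hT squarefree_one (fun k hk => ⟨(hW k hk).1, by simp⟩) hWd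
  have h15 : C₂ ^ ((1 : ℕ).primeFactors.card + 1) = C₂ := by simp
  rw [h15] at h14
  have h16 : (Q : ℝ) * (T : ℝ) ^ (1 / 4 : ℝ) / ((1 : ℕ) : ℝ) = Q * (T : ℝ) ^ (1 / 4 : ℝ) := by simp
  rw [h16] at h14
  have h17 : ((T - 1 : ℕ) : ℝ) ≤ T := by exact_mod_cast Nat.sub_le T 1
  have h18 : (W.card : ℝ) * ((T - 1 : ℕ) : ℝ) ≤ 16 * Q * T := mul_le_mul hcard h17 (by positivity) (by positivity)
  have h19 : 0 ≤ R ^ (3 / 2 : ℝ) := Real.rpow_nonneg hR0 _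
  have h20 : 0 ≤ R ^ (3 / 2 : ℝ) * ((T : ℝ) ^ (5 / 4 : ℝ) + Q * (T : ℝ) ^ (1 / 4 : ℝ)) := by positivity
  have h21 := mul_le_mul_of_nonneg_left h18 (by linarith : 0 ≤ 3 * C₁)
  have h22 := mul_le_mul_of_nonneg_left h14 (mul_nonneg (by linarith : 0 ≤ 3 * C₁) h19)
  have h23 : 0 ≤ (T : ℝ) * Q := by positivity
  have h24 : 0 ≤ 3 * C₁ * C₂ * ((T : ℝ) * Q) := by positivity
  have h25 : 0 ≤ 3 * C₁ * 16 * (R ^ (3 / 2 : ℝ) * ((T : ℝ) ^ (5 / 4 : ℝ) + Q * (T : ℝ) ^ (1 / 4 : ℝ))) := by positivity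
  nlinarith

end Pool.Agent.RL
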